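import Pool.Agent.Helper57.SI.Stmts

set_option autoImplicit false

namespace Pool.Agent.Helper56.SI

open MeasureTheory Set Filter Topology
open Pool.Agent.Helper57.QZ (Pr tor circ aa Zy Wy Sy Vy Ky Fy pt lin)
open Pool.Agent.Helper57.SI

/-- exponential of a trigonometric sum -/
noncomputable def uE {y : ℕ} (β : ℝ) (c d : Pr y → ℝ) (φ : Pr y → ℝ) : ℝ :=
  Real.exp (∑ p : Pr y, (c p * Real.cos (φ p + β) + d p * Real.sin (φ p + β)))

theorem uE_cont {y : ℕ} (β : ℝ) (c d : Pr y → ℝ) : Continuous (uE β c d) := by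
  unfold uE
  apply Real.continuous_exp.comp
  apply continuous_finsetSum
  intro p _
  fun_prop

theorem uE_pos {y : ℕ} (β : ℝ) (c d : Pr y → ℝ) (φ : Pr y → ℝ) : 0 < uE β c d φ :=
  Real.exp_pos _

theorem uE_per {y : ℕ} (β : ℝ) (c d : Pr y → ℝ) (φ : Pr y → ℝ) (p : Pr y) :
    uE β c d (Function.update φ p (φ p + 2 * Real.pi)) = uE β c d φ := by
  unfold uE
  congr 1
  apply Finset.sum_congr rfl
  intro q _
  by_cases h : q = p
  · subst h
    rw [Function.update_self]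
    have e : φ q + 2 * Real.pi + β = φ q + β + 2 * Real.pi := by ring
    rw [e, Real.cos_add_two_pi, Real.sin_add_two_pi]
  · rw [Function.update_of_ne h]

theorem uE_int {y : ℕ} (β : ℝ) (c d : Pr y → ℝ) : Integrable (uE β c d) (tor y) := by
  apply Integrable.of_bound (uE_cont β c d).aestronglyMeasurable
    (Real.exp (∑ p : Pr y, (|c p| + |d p|)))
  refine Eventually.of_forall fun φ => ?_
  rw [Real.norm_of_nonneg (uE_pos β c d φ).le]
  unfold uE
  apply Real.exp_le_exp.2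
  apply Finset.sum_le_sum
  intro p _
  have h1 : c p * Real.cos (φ p + β) ≤ |c p| := by
    calc c p * Real.cos (φ p + β) ≤ |c p * Real.cos (φ p + β)| := le_abs_self _
      _ = |c p| * |Real.cos (φ p + β)| := abs_mul _ _
      _ ≤ |c p| * 1 := mul_le_mul_of_nonneg_left (Real.abs_cos_le_one _) (abs_nonneg _)
      _ = |c p| := mul_one _
  have h2 : d p * Real.sin (φ p + β) ≤ |d p| := by
    calc d p * Real.sin (φ p + β) ≤ |d p * Real.sin (φ p + β)| := le_abs_self _
      _ = |d p| * |Real.sin (φ p + β)| := abs_mul _ _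
      _ ≤ |d p| * 1 := mul_le_mul_of_nonneg_left (Real.abs_sin_le_one _) (abs_nonneg _)
      _ = |d p| := mul_one _
  linarith

/-- the coefficients -/
noncomputable def ucc (j y Z : ℕ) (p : Pr y) : ℝ :=
  if Z < (p : ℕ) then Real.log ((p : ℕ) : ℝ) ^ j / ((p : ℕ) : ℝ) else 0

theorem ure (j y Z : ℕ) (β : ℝ) (φ : Pr y → ℝ) :
    (Complex.exp (-((β : ℂ) * Complex.I)) * tl j y Z φ).re =
      ∑ p : Pr y, ucc j y Z p * Real.cos (φ p + β) := by
  unfold tl ucc
  rw [Finset.mul_sum, Complex.re_sum]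
  apply Finset.sum_congr rfl
  intro p _
  by_cases h : Z < (p : ℕ)
  · simp only [h, if_true]
    have e : Complex.exp (-((β : ℂ) * Complex.I)) *
        (((Real.log ((p : ℕ) : ℝ) ^ j / ((p : ℕ) : ℝ) : ℝ) : ℂ) *
          Complex.exp (-((φ p : ℂ) * Complex.I))) =
        ((Real.log ((p : ℕ) : ℝ) ^ j / ((p : ℕ) : ℝ) : ℝ) : ℂ) *
          Complex.exp (((-(φ p + β) : ℝ) : ℂ) * Complex.I) := by
      rw [mul_left_comm, ← Complex.exp_add]
      congr 2
      push_cast
      ring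
    rw [e, Complex.re_ofReal_mul, Complex.exp_ofReal_mul_I_re, Real.cos_neg]
  · simp [h]

theorem uder (j y Z : ℕ) (β t : ℝ) :
    HasDerivAt (fun t : ℝ => ∑ p : Pr y, ucc j y Z p * Real.cos (lin y t p + β))
      (∑ p : Pr y, -(ucc j y Z p * Real.log ((p : ℕ) : ℝ)) * Real.sin (lin y t p + β)) t := by
  apply HasDerivAt.fun_sum
  intro p _
  have h1 : HasDerivAt (fun t : ℝ => lin y t p + β) (Real.log ((p : ℕ) : ℝ)) t := by
    unfold lin
    have := ((hasDerivAt_id t).mul_const (Real.log ((p : ℕ) : ℝ))).add_const β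
    simpa using this
  have h2 := (h1.cos).const_mul (ucc j y Z p)
  have h3 : -(ucc j y Z p * Real.log ((p : ℕ) : ℝ)) * Real.sin (lin y t p + β) =
      ucc j y Z p * (-Real.sin (lin y t p + β) * Real.log ((p : ℕ) : ℝ)) := by ring
  rw [h3]
  exact h2

theorem ulin_cont (y : ℕ) : Continuous (lin y) := by
  unfold lin
  fun_prop

theorem ucoef {j y Z : ℕ} (hj : j ≤ 1) (p : Pr y) (l : ℝ) :
    (l * ucc j y Z p) ^ 2 + (ucc j y Z p * Real.log ((p : ℕ) : ℝ)) ^ 2 ≤
      (l ^ 2 + 1) * (if Z < (p : ℕ) then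
        ((1 + Real.log ((p : ℕ) : ℝ)) ^ 2 / ((p : ℕ) : ℝ)) ^ 2 else 0) := by
  unfold ucc
  by_cases h : Z < (p : ℕ)
  · simp only [h, if_true]
    have hp : (1 : ℝ) ≤ ((p : ℕ) : ℝ) := by
      have : 1 ≤ (p : ℕ) := by omega
      exact_mod_cast this
    have hx : 0 ≤ Real.log ((p : ℕ) : ℝ) := Real.log_nonneg hp
    set x := Real.log ((p : ℕ) : ℝ) with hxdef
    set P : ℝ := ((p : ℕ) : ℝ) with hP
    have hP0 : 0 < P := by linarith
    have h1 : x ^ j ≤ (1 + x) ^ 2 := by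
      interval_cases j
      · nlinarith
      · nlinarith
    have h2 : x ^ j * x ≤ (1 + x) ^ 2 := by
      interval_cases j
      · nlinarith
      · nlinarith
    have h3 : 0 ≤ x ^ j := by positivity
    have h4 : (x ^ j / P) ^ 2 ≤ ((1 + x) ^ 2 / P) ^ 2 :=
      pow_le_pow_left₀ (by positivity) (div_le_div_of_nonneg_right h1 hP0.le) 2
    have h5 : (x ^ j / P * x) ^ 2 ≤ ((1 + x) ^ 2 / P) ^ 2 := by
      have e : x ^ j / P * x = x ^ j * x / P := by ring
      rw [e]
      exact pow_le_pow_left₀ (by positivity) (div_le_div_of_nonneg_right h2 hP0.le) 2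
    calc (l * (x ^ j / P)) ^ 2 + (x ^ j / P * x) ^ 2 =
        l ^ 2 * (x ^ j / P) ^ 2 + (x ^ j / P * x) ^ 2 := by ring
      _ ≤ l ^ 2 * ((1 + x) ^ 2 / P) ^ 2 + ((1 + x) ^ 2 / P) ^ 2 :=
          add_le_add (mul_le_mul_of_nonneg_left h4 (sq_nonneg _)) h5
      _ = (l ^ 2 + 1) * ((1 + x) ^ 2 / P) ^ 2 := by ring
  · simp [h]

/-- the numerical part -/
theorem unum {η C A L : ℝ} (hη : η ∈ Ioo (0 : ℝ) 1) (hC : 0 < C) (hA : 0 < A) (hL : 1 ≤ L)
    (hL2 : 16 * A + 8 ≤ L) (hL3 : 4 * C * (A ^ 2 + 1) ≤ L ^ (η / 2)) {Z : ℕ}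
    (hZ : Z = ⌊L ^ (1 + η)⌋₊) : 1 ≤ Z ∧
    ∀ S : ℝ, S ≤ C * (Z : ℝ) ^ (-(1 - η / 4)) →
      (1 + 2 * (A * L)) * Real.exp (((A * L) ^ 2 + 1) * S) + 1 ≤ Real.exp (2 * L) := by
  obtain ⟨hη0, hη1⟩ := hη
  have hL0 : 0 < L := by linarith
  have hx1 : 1 ≤ L ^ (1 + η) := Real.one_le_rpow hL (by linarith)
  have hZ1 : 1 ≤ Z := by
    rw [hZ]
    exact Nat.le_floor (by simpa using hx1)
  refine ⟨hZ1, fun S hS => ?_⟩
  have hZr : (1 : ℝ) ≤ Z := by exact_mod_cast hZ1
  have hZ2 : L ^ (1 + η) / 2 ≤ Z := by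
    have h := Nat.lt_floor_add_one (L ^ (1 + η))
    rw [← hZ] at h
    linarith
  have hx0 : 0 < L ^ (1 + η) := by linarith
  have e1 : (Z : ℝ) ^ (-(1 - η / 4)) ≤ 2 * L ^ (-(1 + η / 2)) := by
    calc (Z : ℝ) ^ (-(1 - η / 4)) ≤ (L ^ (1 + η) / 2) ^ (-(1 - η / 4)) :=
          Real.rpow_le_rpow_of_nonpos (by positivity) hZ2 (by linarith)
      _ = (L ^ (1 + η)) ^ (-(1 - η / 4)) * (2 : ℝ) ^ (1 - η / 4) := by
          rw [Real.div_rpow hx0.le (by norm_num), Real.rpow_neg (by norm_num : (0 : ℝ) ≤ 2)]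
          field_simp
      _ ≤ L ^ (-(1 + η / 2)) * 2 := by
          apply mul_le_mul _ _ (by positivity) (by positivity)
          · rw [← Real.rpow_mul hL0.le]
            apply Real.rpow_le_rpow_of_exponent_le hL
            nlinarith
          · calc (2 : ℝ) ^ (1 - η / 4) ≤ (2 : ℝ) ^ (1 : ℝ) :=
                  Real.rpow_le_rpow_of_exponent_le (by norm_num) (by linarith)
              _ = 2 := Real.rpow_one 2
      _ = 2 * L ^ (-(1 + η / 2)) := mul_comm _ _
  have e2 : L ^ (-(1 + η / 2)) = L⁻¹ * (L ^ (η / 2))⁻¹ := by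
    rw [neg_add, Real.rpow_add hL0, Real.rpow_neg hL0.le, Real.rpow_neg hL0.le, Real.rpow_one]
  have hq0 : 0 < L ^ (η / 2) := Real.rpow_pos_of_pos hL0 _
  have e3 : S ≤ C * (2 * (L⁻¹ * (L ^ (η / 2))⁻¹)) := by
    rw [e2] at e1
    exact hS.trans (mul_le_mul_of_nonneg_left e1 hC.le)
  have e4 : ((A * L) ^ 2 + 1) * S ≤ L / 2 := by
    have f1 : (A * L) ^ 2 + 1 ≤ (A ^ 2 + 1) * L ^ 2 := by nlinarith
    have f2 : 0 ≤ C * (2 * (L⁻¹ * (L ^ (η / 2))⁻¹)) := by positivity
    calc ((A * L) ^ 2 + 1) * S ≤ ((A * L) ^ 2 + 1) * (C * (2 * (L⁻¹ * (L ^ (η / 2))⁻¹))) :=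
          mul_le_mul_of_nonneg_left e3 (by positivity)
      _ ≤ ((A ^ 2 + 1) * L ^ 2) * (C * (2 * (L⁻¹ * (L ^ (η / 2))⁻¹))) :=
          mul_le_mul_of_nonneg_right f1 f2
      _ = (4 * C * (A ^ 2 + 1)) * (L / 2 * (L ^ (η / 2))⁻¹) := by field_simp; ring
      _ ≤ L ^ (η / 2) * (L / 2 * (L ^ (η / 2))⁻¹) :=
          mul_le_mul_of_nonneg_right hL3 (by positivity)
      _ = L / 2 := by field_simp
  have e5 : 1 + 2 * (A * L) ≤ Real.exp (L / 2) := by
    have f1 := Real.quadratic_le_exp_of_nonneg (show 0 ≤ L / 2 by linarith)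
    have f2 : (16 * A + 8) * L ≤ L * L := mul_le_mul_of_nonneg_right hL2 hL0.le
    nlinarith
  have e6 : Real.exp (((A * L) ^ 2 + 1) * S) ≤ Real.exp (L / 2) := Real.exp_le_exp.2 e4
  have e7 : (1 + 2 * (A * L)) * Real.exp (((A * L) ^ 2 + 1) * S) ≤ Real.exp L := by
    calc (1 + 2 * (A * L)) * Real.exp (((A * L) ^ 2 + 1) * S) ≤
        Real.exp (L / 2) * Real.exp (L / 2) :=
          mul_le_mul e5 e6 (Real.exp_pos _).le (Real.exp_pos _).le
      _ = Real.exp L := by rw [← Real.exp_add]; congr 1; ring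
  have e8 : (2 : ℝ) ≤ Real.exp L := by
    have := Real.add_one_le_exp L
    linarith
  have e9 : Real.exp (2 * L) = Real.exp L * Real.exp L := by
    rw [← Real.exp_add]; congr 1; ring
  rw [e9]
  nlinarith

theorem st_UPD (h1 : ST_UEX) (h2 : ST_TSQ) (h3 : ST_SOB) (h4 : ST_KW3) (h5 : ST_MK) :
    ST_UPD := by
  intro η hη κ hκ j hj
  obtain ⟨hη0, hη1⟩ := id hη
  obtain ⟨C, hC, H2⟩ := h2 (η / 4) ⟨by linarith, by linarith⟩
  set A : ℝ := 8 / η with hA
  have hA0 : 0 < A := by positivity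
  set B : ℝ := 4 * C * (A ^ 2 + 1) with hB
  have hB0 : 0 < B := by positivity
  set L₀ : ℝ := max (max 1 (16 * A + 8)) (B ^ (2 / η)) with hL₀
  refine ⟨max (max 1 (Real.exp L₀)) (12 / κ), ?_⟩
  intro H hH y β
  have hH1 : 1 ≤ H := ((le_max_left _ _).trans (le_max_left _ _)).trans hH
  have hHe : Real.exp L₀ ≤ H := ((le_max_right _ _).trans (le_max_left _ _)).trans hH
  have hHκ : 12 / κ ≤ H := (le_max_right _ _).trans hH
  have hH0 : 0 < H := by linarith
  set L : ℝ := Real.log H with hL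
  have hLL : L₀ ≤ L := by
    rw [hL, Real.le_log_iff_exp_le hH0]
    exact hHe
  have hL1 : 1 ≤ L := ((le_max_left _ _).trans (le_max_left _ _)).trans hLL
  have hL2 : 16 * A + 8 ≤ L := ((le_max_right _ _).trans (le_max_left _ _)).trans hLL
  have hL0 : 0 < L := by linarith
  have hL3 : B ≤ L ^ (η / 2) := by
    have g1 : B ^ (2 / η) ≤ L := (le_max_right _ _).trans hLL
    have g2 : (B ^ (2 / η)) ^ (η / 2) ≤ L ^ (η / 2) :=
      Real.rpow_le_rpow (by positivity) g1 (by linarith)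
    rw [← Real.rpow_mul hB0.le] at g2
    have g3 : 2 / η * (η / 2) = 1 := by field_simp
    rw [g3, Real.rpow_one] at g2
    exact g2
  have hexpL : Real.exp L = H := Real.exp_log hH0
  obtain ⟨hZ1, hnum⟩ := unum (Z := ZZ η H) hη hC hA0 hL1 hL2 hL3 rfl
  set Z : ℕ := ZZ η H with hZ
  set l : ℝ := A * L with hl
  have hl0 : 0 < l := by positivity
  have hlη : l * (η / 2) = 4 * L := by
    rw [hl, hA]; field_simp; ring
  set cc : Pr y → ℝ := ucc j y Z with hcc
  set lc : Pr y → ℝ := fun p => l * cc p with hlc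
  set dd : Pr y → ℝ := fun p => cc p * Real.log ((p : ℕ) : ℝ) with hdd
  set G : (Pr y → ℝ) → ℝ := fun φ => uE β lc (fun _ => 0) φ + l * uE β lc (fun p => -dd p) φ +
    l * uE β lc dd φ with hG
  have hGc : Continuous G :=
    ((uE_cont β lc _).add ((uE_cont β lc _).const_mul l)).add ((uE_cont β lc _).const_mul l)
  have hG0 : ∀ φ, 0 ≤ G φ := fun φ => by
    have a1 := uE_pos β lc (fun _ => 0) φ
    have a2 := uE_pos β lc (fun p => -dd p) φ
    have a3 := uE_pos β lc dd φ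
    show 0 ≤ uE β lc (fun _ => 0) φ + l * uE β lc (fun p => -dd p) φ + l * uE β lc dd φ
    positivity
  have hGp : ∀ (φ : Pr y → ℝ) (p : Pr y),
      G (Function.update φ p (φ p + 2 * Real.pi)) = G φ := fun φ p => by
    show uE β lc (fun _ => 0) (Function.update φ p (φ p + 2 * Real.pi)) +
      l * uE β lc (fun p => -dd p) (Function.update φ p (φ p + 2 * Real.pi)) +
      l * uE β lc dd (Function.update φ p (φ p + 2 * Real.pi)) = _
    rw [uE_per, uE_per, uE_per]
  -- the mean of `G`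
  set S : ℝ := ∑ p : Pr y, (if Z < (p : ℕ) then
    ((1 + Real.log ((p : ℕ) : ℝ)) ^ 2 / ((p : ℕ) : ℝ)) ^ 2 else 0) with hS
  have hSb : S ≤ C * (Z : ℝ) ^ (-(1 - η / 4)) := H2 y Z hZ1
  have hsum : ∑ p : Pr y, ((lc p) ^ 2 + (dd p) ^ 2) ≤ (l ^ 2 + 1) * S := by
    rw [hS, Finset.mul_sum]
    exact Finset.sum_le_sum fun p _ => ucoef hj p l
  have hm : ∀ d : Pr y → ℝ, (∀ p, d p ^ 2 ≤ dd p ^ 2) →
      ∫ φ, uE β lc d φ ∂tor y ≤ Real.exp ((l ^ 2 + 1) * S) := by
    intro d hd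
    refine (h1 y lc d β).trans (Real.exp_le_exp.2 (le_trans ?_ hsum))
    exact Finset.sum_le_sum fun p _ => by linarith [hd p]
  have hEG : ∫ φ, G φ ∂tor y ≤ (1 + 2 * l) * Real.exp ((l ^ 2 + 1) * S) := by
    have i1 := uE_int β lc (fun _ => 0)
    have i2 := (uE_int β lc (fun p => -dd p)).const_mul l
    have i3 := (uE_int β lc dd).const_mul l
    have e : ∫ φ, G φ ∂tor y = (∫ φ, uE β lc (fun _ => 0) φ ∂tor y) +
        l * (∫ φ, uE β lc (fun p => -dd p) φ ∂tor y) + l * (∫ φ, uE β lc dd φ ∂tor y) := by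
      have i12 : Integrable (fun φ => uE β lc (fun _ => 0) φ +
          l * uE β lc (fun p => -dd p) φ) (tor y) := i1.add i2
      show ∫ φ, (uE β lc (fun _ => 0) φ + l * uE β lc (fun p => -dd p) φ +
        l * uE β lc dd φ) ∂tor y = _
      rw [integral_add i12 i3, integral_add i1 i2, integral_const_mul, integral_const_mul]
    rw [e]
    have a1 := hm (fun _ => 0) (fun p => by nlinarith [sq_nonneg (dd p)])
    have a2 := hm (fun p => -dd p) (fun p => by nlinarith)
    have a3 := hm dd (fun p => le_rfl)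
    have b2 := mul_le_mul_of_nonneg_left a2 hl0.le
    have b3 := mul_le_mul_of_nonneg_left a3 hl0.le
    linarith
  have hEG1 : (∫ φ, G φ ∂tor y) + 1 ≤ H ^ 2 := by
    have g1 := hnum S hSb
    have g2 : Real.exp (2 * L) = H ^ 2 := by
      rw [← hexpL, ← Real.exp_nat_mul]
      norm_num
    rw [g2] at g1
    linarith
  obtain ⟨T₀, hT₀, H4⟩ := h4 y G hGc hG0 hGp 1 one_pos
  refine ⟨max T₀ (2 * H + 4), lt_of_lt_of_le hT₀ (le_max_left _ _), ?_⟩
  intro T hT
  have hT1 : T₀ ≤ T := (le_max_left _ _).trans hT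
  have hT2 : 2 * H + 4 ≤ T := (le_max_right _ _).trans hT
  have hT0 : 0 < T := lt_of_lt_of_le hT₀ hT1
  have hfc : Continuous (fun t => G (lin y t)) := hGc.comp (ulin_cont y)
  obtain ⟨E, hE1, hE2, hE3⟩ := h5 (fun t => G (lin y t)) H (Real.exp (4 * L)) T hH1
    (Real.exp_pos _) hT2 hfc.continuousOn (fun t => hG0 _)
  refine ⟨E, hE1, ?_, ?_⟩
  · refine hE2.trans ?_
    have g1 := H4 T hT1
    have g2 : ∫ t in (T / 2)..(4 * T), G (lin y t) ≤ 4 * T * H ^ 2 :=
      g1.trans (mul_le_mul_of_nonneg_left hEG1 (by linarith))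
    have g3 : Real.exp (4 * L) = H ^ 4 := by
      rw [← hexpL, ← Real.exp_nat_mul]
      norm_num
    rw [g3]
    have g4 : (H + 2) / H ^ 4 * ∫ t in (T / 2)..(4 * T), G (lin y t) ≤
        (H + 2) / H ^ 4 * (4 * T * H ^ 2) := mul_le_mul_of_nonneg_left g2 (by positivity)
    refine g4.trans ?_
    have g5 : (H + 2) / H ^ 4 * (4 * T * H ^ 2) = 4 * (H + 2) / H ^ 2 * T := by
      field_simp
    rw [g5]
    apply mul_le_mul_of_nonneg_right _ hT0.le
    rw [div_le_iff₀ (by positivity)]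
    have g6 : 12 ≤ κ * H := by
      rw [div_le_iff₀ hκ] at hHκ
      linarith
    nlinarith
  · intro u hu huE t ht
    have k1 := hE3 u hu huE
    have k2 := h3 (fun t : ℝ => ∑ p : Pr y, cc p * Real.cos (lin y t p + β))
      (fun t : ℝ => ∑ p : Pr y, -(cc p * Real.log ((p : ℕ) : ℝ)) * Real.sin (lin y t p + β))
      l hl0 (fun t => uder j y Z β t) (by
        apply continuous_finsetSum
        intro p _
        have := ulin_cont y
        have h6 : Continuous (fun t : ℝ => lin y t p) := (continuous_apply p).comp this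
        fun_prop) t
    have k3 : ∀ s : ℝ, (Real.exp (l * ∑ p : Pr y, cc p * Real.cos (lin y s p + β)) +
        l * Real.exp (l * (∑ p : Pr y, cc p * Real.cos (lin y s p + β)) +
          ∑ p : Pr y, -(cc p * Real.log ((p : ℕ) : ℝ)) * Real.sin (lin y s p + β)) +
        l * Real.exp (l * (∑ p : Pr y, cc p * Real.cos (lin y s p + β)) -
          ∑ p : Pr y, -(cc p * Real.log ((p : ℕ) : ℝ)) * Real.sin (lin y s p + β))) =
        G (lin y s) := by
      intro s
      show _ = uE β lc (fun _ => 0) (lin y s) + l * uE β lc (fun p => -dd p) (lin y s) +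
        l * uE β lc dd (lin y s)
      unfold uE
      have m1 : l * ∑ p : Pr y, cc p * Real.cos (lin y s p + β) =
          ∑ p : Pr y, (lc p * Real.cos (lin y s p + β) + 0 * Real.sin (lin y s p + β)) := by
        rw [Finset.mul_sum]
        apply Finset.sum_congr rfl
        intro p _
        show _ = l * cc p * Real.cos (lin y s p + β) + 0 * Real.sin (lin y s p + β)
        ring
      have m2 : l * (∑ p : Pr y, cc p * Real.cos (lin y s p + β)) +
          ∑ p : Pr y, -(cc p * Real.log ((p : ℕ) : ℝ)) * Real.sin (lin y s p + β) =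
          ∑ p : Pr y, (lc p * Real.cos (lin y s p + β) + -dd p * Real.sin (lin y s p + β)) := by
        rw [Finset.mul_sum, ← Finset.sum_add_distrib]
        apply Finset.sum_congr rfl
        intro p _
        show _ = l * cc p * Real.cos (lin y s p + β) +
          -(cc p * Real.log ((p : ℕ) : ℝ)) * Real.sin (lin y s p + β)
        ring
      have m3 : l * (∑ p : Pr y, cc p * Real.cos (lin y s p + β)) -
          ∑ p : Pr y, -(cc p * Real.log ((p : ℕ) : ℝ)) * Real.sin (lin y s p + β) =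
          ∑ p : Pr y, (lc p * Real.cos (lin y s p + β) + dd p * Real.sin (lin y s p + β)) := by
        rw [Finset.mul_sum, ← Finset.sum_sub_distrib]
        apply Finset.sum_congr rfl
        intro p _
        show _ = l * cc p * Real.cos (lin y s p + β) +
          cc p * Real.log ((p : ℕ) : ℝ) * Real.sin (lin y s p + β)
        ring
      rw [m2, m3, m1]
    simp only [k3] at k2
    have k4 : ∫ s in t..(t + 1), G (lin y s) ≤ ∫ s in (u - 1)..(u + H + 1), G (lin y s) := by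
      apply intervalIntegral.integral_mono_interval (by linarith [ht.1]) (by linarith)
        (by linarith [ht.2])
      · exact Eventually.of_forall fun s => hG0 _
      · exact hfc.intervalIntegrable _ _
    have k5 : Real.exp (l * ∑ p : Pr y, cc p * Real.cos (lin y t p + β)) ≤
        Real.exp (4 * L) := k2.trans (k4.trans k1)
    rw [Real.exp_le_exp, ← hlη] at k5
    rw [ure j y Z β (lin y t)]
    exact le_of_mul_le_mul_left k5 hl0

end Pool.Agent.Helper56.SI
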